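import Pool.Agent.K3h56.E2.Stm2
import Pool.Agent.K3h50.E2.Inf
import Pool.Agent.K3h25.E2.Loc

/-! # Brick MINUS (helper56's project E2x): assembly of the minus part -/

set_option autoImplicit false

open NumberField IsDedekindDomain Filter Topology

noncomputable section

namespace Pool.Agent.K3h77.E2

open Pool.Agent.K3h30.RS Pool.Agent.K3h56.E2

section quad

variable {F K : Type} [Field F] [NumberField F] [Field K] [NumberField K] [Algebra F K]

/-- the inclusion `F^* → K^*` -/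
def inc (F K : Type) [Field F] [Field K] [Algebra F K] : Fˣ →* Kˣ :=
  Units.map (algebraMap F K : F →* K)

omit [NumberField F] [NumberField K] in
theorem inc_inj : Function.Injective (inc F K) := by
  intro x y h
  have h1 := congrArg (fun z : Kˣ => (z : K)) h
  exact Units.ext ((algebraMap F K).injective h1)

theorem val_iff {v : HeightOneSpectrum (𝓞 F)} {P : HeightOneSpectrum (𝓞 K)} (h : Above {v} P)
    (x : F) : P.valuation K (algebraMap F K x) = 1 ↔ v.valuation F x = 1 := by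
  obtain ⟨v', hv', hP⟩ := h
  rw [Set.mem_singleton_iff] at hv'
  subst hv'
  haveI : P.asIdeal.LiesOver v'.asIdeal := ⟨hP.symm⟩
  rw [← HeightOneSpectrum.valuation_liesOver K v' P x]
  exact pow_eq_one_iff_left (Ideal.IsDedekindDomain.ramificationIdx'_ne_zero_of_liesOver P.asIdeal
    v'.ne_bot)

theorem exists_under (P : HeightOneSpectrum (𝓞 K)) :
    ∃ v : HeightOneSpectrum (𝓞 F), Above {v} P := by
  haveI := P.isPrime
  exact ⟨⟨P.asIdeal.under (𝓞 F), inferInstance, Ideal.under_ne_bot (𝓞 F) P.ne_bot⟩, _, rfl, rfl⟩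

theorem inc_mem {S : Finset (HeightOneSpectrum (𝓞 F))} {A : Finset (HeightOneSpectrum (𝓞 K))}
    (hO : Over S A) (y : Fˣ) :
    inc F K y ∈ SU K (A : Set (HeightOneSpectrum (𝓞 K))) ↔
      y ∈ SU F (S : Set (HeightOneSpectrum (𝓞 F))) := by
  constructor
  · intro h v hv
    obtain ⟨P, hP⟩ := (Pool.Agent.K3h25.RS.t_OVER F K v).1
    have hPA : P ∉ (A : Set (HeightOneSpectrum (𝓞 K))) := by
      intro hPA
      obtain ⟨v', hv', hP'⟩ := (hO P).1 hPA
      obtain ⟨v₁, h1, h2⟩ := hP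
      obtain ⟨v₂, h3, h4⟩ := hP'
      rw [Set.mem_singleton_iff] at h1 h3
      subst h1 h3
      have h5 : v₁ = v₂ := HeightOneSpectrum.ext (h2.symm.trans h4)
      rw [h5] at hv
      exact hv hv'
    exact (val_iff hP (y : F)).1 (h P hPA)
  · intro h P hP
    obtain ⟨v, hv⟩ := exists_under (F := F) P
    have hvS : v ∉ (S : Set (HeightOneSpectrum (𝓞 F))) := fun hvS =>
      hP ((hO P).2 ⟨v, hvS, hv⟩)
    exact (val_iff hv (y : F)).2 (h v hvS)

variable {τ : K ≃ₐ[F] K}

theorem tau_tau (h : Quad F K τ) (x : K) : τ (τ x) = x := by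
  rcases Pool.Agent.K3h50.E2.aut_eq h (τ.trans τ) with h1 | h1
  · exact congrArg (fun σ : K ≃ₐ[F] K => σ x) h1
  · exfalso
    apply h.ne
    ext z
    have h2 := congrArg (fun σ : K ≃ₐ[F] K => σ z) h1
    exact τ.injective h2

theorem fixed (h : Quad F K τ) (x : K) (hx : τ x = x) : ∃ y : F, algebraMap F K y = x := by
  haveI := Pool.Agent.K3h50.E2.isGalois_of_quad h
  haveI : FiniteDimensional F K := FiniteDimensional.of_finrank_pos (by rw [h.deg]; norm_num)
  have h1 : x ∈ Set.range (algebraMap F K) := by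
    rw [IsGalois.mem_range_algebraMap_iff_fixed]
    intro σ
    rcases Pool.Agent.K3h50.E2.aut_eq h σ with h2 | h2
    · rw [h2]; rfl
    · rw [h2]; exact hx
  exact h1

/-- the group of the `A`-units is stable -/
theorem act_mem {S : Finset (HeightOneSpectrum (𝓞 F))} {A : Finset (HeightOneSpectrum (𝓞 K))}
    (hO : Over S A) (z : Kˣ) (hz : z ∈ SU K (A : Set (HeightOneSpectrum (𝓞 K)))) :
    actK τ z ∈ SU K (A : Set (HeightOneSpectrum (𝓞 K))) := by
  intro w hw
  have hwp := w.isPrime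
  obtain ⟨w', hw'⟩ : ∃ w' : HeightOneSpectrum (𝓞 K),
      ∀ x : 𝓞 K, x ∈ w'.asIdeal ↔ τ • x ∈ w.asIdeal := by
    refine ⟨⟨w.asIdeal.comap (MulSemiringAction.toRingHom (K ≃ₐ[F] K) (𝓞 K) τ), inferInstance,
      ?_⟩, fun x => Iff.rfl⟩
    intro h0
    apply w.ne_bot
    rw [eq_bot_iff]
    intro a ha
    have h1 : τ⁻¹ • a ∈ w.asIdeal.comap (MulSemiringAction.toRingHom (K ≃ₐ[F] K) (𝓞 K) τ) := by
      change τ • (τ⁻¹ • a) ∈ w.asIdeal
      rwa [smul_inv_smul]
    rw [h0, Ideal.mem_bot] at h1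
    have h2 : τ • (τ⁻¹ • a) = 0 := by rw [h1, smul_zero]
    rw [smul_inv_smul] at h2
    rw [h2]
    exact Ideal.zero_mem _
  have h1 := Pool.Agent.K3h25.E2.val_aut w w' τ hw' (z : K)
  have hw'A : w' ∉ (A : Set (HeightOneSpectrum (𝓞 K))) := by
    intro hA
    obtain ⟨v, hv, v₁, hv₁, hv2⟩ := (hO w').1 hA
    apply hw
    refine (hO w).2 ⟨v, hv, v₁, hv₁, ?_⟩
    rw [← hv2]
    ext x
    rw [Ideal.mem_comap, Ideal.mem_comap, hw']
    have h2 : τ • (algebraMap (𝓞 F) (𝓞 K) x) = algebraMap (𝓞 F) (𝓞 K) x := by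
      apply NumberField.RingOfIntegers.ext
      exact τ.commutes (x : F)
    rw [h2]
  have h3 := hz w' hw'A
  rw [h1] at h3
  exact h3

end quad

section tors

variable (K : Type) [Field K] [NumberField K]

theorem map_torsion : (Units.torsion K).map (Units.map (algebraMap (𝓞 K) K : 𝓞 K →* K)) = mu K := by
  ext x
  constructor
  · rintro ⟨u, hu, rfl⟩
    exact MonoidHom.isOfFinOrder _ hu
  · intro hx
    have hx' : IsOfFinOrder x := hx
    obtain ⟨n, hn, hxn⟩ := isOfFinOrder_iff_pow_eq_one.1 hx'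
    have h1 : ((x : Kˣ) : K) ^ n = 1 := by
      rw [← Units.val_pow_eq_pow_val, hxn, Units.val_one]
    have h2 : ((x⁻¹ : Kˣ) : K) ^ n = 1 := by
      rw [← Units.val_pow_eq_pow_val, inv_pow, hxn, inv_one, Units.val_one]
    have h3 : IsIntegral ℤ (x : K) := IsIntegral.of_pow hn (by rw [h1]; exact isIntegral_one)
    have h4 : IsIntegral ℤ ((x⁻¹ : Kˣ) : K) :=
      IsIntegral.of_pow hn (by rw [h2]; exact isIntegral_one)
    refine ⟨⟨⟨(x : K), h3⟩, ⟨((x⁻¹ : Kˣ) : K), h4⟩, ?_, ?_⟩, ?_, ?_⟩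
    · apply NumberField.RingOfIntegers.ext
      exact x.mul_inv
    · apply NumberField.RingOfIntegers.ext
      exact x.inv_mul
    · refine isOfFinOrder_iff_pow_eq_one.2 ⟨n, hn, ?_⟩
      apply Units.ext
      apply NumberField.RingOfIntegers.ext
      exact h1
    · apply Units.ext
      rfl

theorem card_mu : Nat.card (mu K) = Units.torsionOrder K := by
  rw [← map_torsion K, Units.torsionOrder]
  refine Subgroup.card_map_of_injective ?_
  intro a b hab
  have h1 := congrArg (fun z : Kˣ => (z : K)) hab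
  exact Units.ext (NumberField.RingOfIntegers.ext h1)

theorem finite_mu : Finite (mu K) := by
  have h1 : Nat.card (mu K) ≠ 0 := by
    rw [card_mu]
    exact Units.torsionOrder_ne_zero K
  exact Nat.finite_of_card_ne_zero h1

theorem mu_le (A : Set (HeightOneSpectrum (𝓞 K))) : mu K ≤ SU K A := by
  intro x hx w _
  have hx' : IsOfFinOrder x := hx
  obtain ⟨n, hn, hxn⟩ := isOfFinOrder_iff_pow_eq_one.1 hx'
  have h1 : ((x : Kˣ) : K) ^ n = 1 := by
    rw [← Units.val_pow_eq_pow_val, hxn, Units.val_one]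
  have h2 : (w.valuation K (x : K)) ^ n = 1 := by
    rw [← map_pow, h1, map_one]
  exact (pow_eq_one_iff_left hn.ne').1 h2

end tors

theorem log_prod_pos {F : Type} [Field F] [NumberField F] (S : Finset (HeightOneSpectrum (𝓞 F))) :
    0 < ∏ v ∈ S, Real.log (Ideal.absNorm v.asIdeal) := by
  refine Finset.prod_pos fun v _ => Real.log_pos ?_
  have h1 : Ideal.absNorm v.asIdeal ≠ 0 := by
    rw [Ne, Ideal.absNorm_eq_zero_iff]
    exact v.ne_bot
  have h2 : Ideal.absNorm v.asIdeal ≠ 1 := by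
    rw [Ne, Ideal.absNorm_eq_one_iff]
    exact v.isPrime.ne_top
  have h3 : 1 < Ideal.absNorm v.asIdeal := by omega
  exact_mod_cast h3

/-- The final computation. -/
theorem final (q wK wF hF hK RF RK πS πA cS cA iS iA H1 IK IN m DF DK Dx a : ℝ) (k r : ℕ)
    (hrk : r ≤ k) (hwK : wK ≠ 0) (hwF : wF ≠ 0) (hhF : hF ≠ 0) (hRF : RF ≠ 0) (hπS : πS ≠ 0)
    (h1 : DF = RF * cS * πS) (h2 : DK = IK * (RK * cA * πA)) (h3 : DK = 2 ^ k * DF * Dx)
    (h4 : IK * wK * H1 = IN * wF * m * 2 ^ r)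
    (h5 : q * (wK * hF * RF * πS) = hK * wF * RK * πA) (h6 : iS * cS = hF) (h7 : iA * cA = hK)
    (h8 : iS * a = iA * H1) :
    q * m * IN = a * 2 ^ (k - r) * Dx := by
  have h2k : (2 : ℝ) ^ k = 2 ^ (k - r) * 2 ^ r := by
    rw [← pow_add]; congr 1; omega
  have hne : wK * hF * RF * πS * wF * 2 ^ r ≠ 0 := by positivity
  apply mul_right_cancel₀ hne
  calc q * m * IN * (wK * hF * RF * πS * wF * 2 ^ r) =
      (q * (wK * hF * RF * πS)) * (IN * wF * m * 2 ^ r) := by ring
    _ = (hK * wF * RK * πA) * (IK * wK * H1) := by rw [h5, ← h4]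
    _ = wF * wK * (iA * H1) * (IK * (RK * cA * πA)) := by rw [← h7]; ring
    _ = wF * wK * (iS * a) * (2 ^ k * DF * Dx) := by rw [← h8, ← h2, h3]
    _ = wF * wK * (iS * cS) * a * 2 ^ k * RF * πS * Dx := by rw [h1]; ring
    _ = a * 2 ^ (k - r) * Dx * (wK * hF * RF * πS * wF * 2 ^ r) := by rw [h6, h2k]; ring

theorem t_MINUS (hZ : S_ZETA0X) (hZP : S_ZPROD) (hLoc : S_LOC) (hLim : S_LIMX) (hS : S_SIND)
    (hFund : S_FUND) (hFact : S_FACT) (hGT : S_GT) (hRank : S_RANK) (hCls : S_CLS) : S_MINUS := by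
  intro F K _ _ _ _ _ τ hQ S A hO hunr r u p hB hp hmov huA hr hr1 L hL hE
  have hcF : 0 < Fintype.card (InfinitePlace F) := Fintype.card_pos
  have hFK : Fintype.card (InfinitePlace F) ≤ Fintype.card (InfinitePlace K) :=
    Fintype.card_le_of_surjective _ (InfinitePlace.comap_surjective (k := F) (K := K))
  obtain ⟨hle, q, hq, hqe⟩ := hLim hZ hZP hLoc F K τ hQ S A hO L hL hE hFK
  have hr' : (Fintype.card (InfinitePlace K) + A.card) -
      (Fintype.card (InfinitePlace F) + S.card) = r := by omega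
  rw [hr'] at hq
  -- `S`-units of `F`
  obtain ⟨k, hk⟩ : ∃ k : ℕ, k + 1 = Fintype.card (InfinitePlace F) + S.card :=
    ⟨Fintype.card (InfinitePlace F) + S.card - 1, by omega⟩
  have hkc : Fintype.card (Fin k) + 1 = Fintype.card (InfinitePlace F) + S.card := by
    rw [Fintype.card_fin]; exact hk
  obtain ⟨y, hy⟩ := hFund F S (Fin k) hkc
  have hyS : ∀ b, y b ∈ SU F (S : Set (HeightOneSpectrum (𝓞 F))) := by
    intro b
    rw [← hy]
    exact (le_sup_left : Subgroup.closure (Set.range y) ≤ _) (Subgroup.subset_closure ⟨b, rfl⟩)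
  -- the numbers
  have hcls := hCls F K τ hQ S A hO hunr
  obtain ⟨a, ha⟩ := hcls
  refine ⟨q, a, hq, fun x hx => ?_⟩
  have hxA : ∀ b, x b ∈ SU K (A : Set (HeightOneSpectrum (𝓞 K))) := fun b => (hx b).1
  have hxm : ∀ b, x b ∈ minus τ := fun b => (hx b).2
  have hιc : Fintype.card (Fin r) + (Fintype.card (InfinitePlace F) + S.card) =
      Fintype.card (InfinitePlace K) + A.card := by
    rw [Fintype.card_fin]; exact hr
  obtain ⟨U, V, hU, hV, hUA, hVS, hdet⟩ := hFact F K τ hQ S A hO (Fin k) (Fin r) u p hB hp hmov huA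
    hkc hιc y x hyS hxA hxm
  -- the index theorem for `F`
  have hF1 := hS F S (Fin k) V hV hVS hkc y hyS
  rw [hy, Subgroup.relIndex_self, Nat.cast_one, one_mul] at hF1
  -- the index theorem for `K`
  have hKc : Fintype.card (Fin k ⊕ Fin r) + 1 = Fintype.card (InfinitePlace K) + A.card := by
    rw [Fintype.card_sum, Fintype.card_fin, Fintype.card_fin]; omega
  have hzA : ∀ b, (Sum.elim (fun b => Units.map (algebraMap F K : F →* K) (y b)) x :
      Fin k ⊕ Fin r → Kˣ) b ∈ SU K (A : Set (HeightOneSpectrum (𝓞 K))) := by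
    rintro (b | b)
    · exact (inc_mem hO (y b)).2 (hyS b)
    · exact hxA b
  have hK1 := hS K A (Fin k ⊕ Fin r) U hU hUA hKc _ hzA
  -- the groups
  obtain ⟨P, hP⟩ : ∃ P : Subgroup Kˣ,
    P = (SU F (S : Set (HeightOneSpectrum (𝓞 F)))).map (inc F K) := ⟨_, rfl⟩
  obtain ⟨N, hN⟩ : ∃ N : Subgroup Kˣ, N = SU K (A : Set (HeightOneSpectrum (𝓞 K))) ⊓ minus τ :=
    ⟨_, rfl⟩
  obtain ⟨Y, hY⟩ : ∃ Y : Subgroup Kˣ, Y = (Subgroup.closure (Set.range y)).map (inc F K) :=
    ⟨_, rfl⟩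
  obtain ⟨X, hX⟩ : ∃ X : Subgroup Kˣ, X = Subgroup.closure (Set.range x) := ⟨_, rfl⟩
  have hactact : ∀ z : Kˣ, actK τ (actK τ z) = z := fun z => Units.ext (tau_tau hQ (z : K))
  have hUact : ∀ z ∈ SU K (A : Set (HeightOneSpectrum (𝓞 K))),
      actK τ z ∈ SU K (A : Set (HeightOneSpectrum (𝓞 K))) := fun z hz => act_mem hO z hz
  have hPiff : ∀ z, z ∈ P ↔ z ∈ SU K (A : Set (HeightOneSpectrum (𝓞 K))) ∧ actK τ z = z := by
    intro z
    rw [hP]
    constructor
    · rintro ⟨y', hy', rfl⟩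
      refine ⟨(inc_mem hO y').2 hy', Units.ext ?_⟩
      exact τ.commutes (y' : F)
    · rintro ⟨hz, hzt⟩
      have h1 : τ (z : K) = (z : K) := congrArg (fun t : Kˣ => (t : K)) hzt
      obtain ⟨y', hy'⟩ := fixed hQ (z : K) h1
      have hy0 : y' ≠ 0 := by
        rintro rfl
        rw [map_zero] at hy'
        exact z.ne_zero hy'.symm
      have h2 : inc F K (Units.mk0 y' hy0) = z := Units.ext hy'
      rw [← h2] at hz
      exact ⟨Units.mk0 y' hy0, (inc_mem hO _).1 hz, h2⟩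
  have hNiff : ∀ z, z ∈ N ↔ z ∈ SU K (A : Set (HeightOneSpectrum (𝓞 K))) ∧ actK τ z = z⁻¹ := by
    intro z
    rw [hN]
    exact Iff.rfl
  have hmuP : mu K ⊓ P = (mu F).map (inc F K) := by
    ext z
    constructor
    · rintro ⟨hz1, hz2⟩
      rw [hP] at hz2
      obtain ⟨y', _, rfl⟩ := hz2
      refine ⟨y', ?_, rfl⟩
      exact (Function.Injective.isOfFinOrder_iff (inc_inj (F := F) (K := K))).1 hz1
    · rintro ⟨y', hy', rfl⟩
      refine ⟨MonoidHom.isOfFinOrder _ hy', ?_⟩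
      rw [hP]
      exact ⟨y', mu_le F _ hy', rfl⟩
  have hYP : Y ≤ P := by
    rw [hY, hP]
    refine Subgroup.map_mono ?_
    rw [← hy]
    exact le_sup_left
  have hXN : X ≤ N := by
    rw [hX, hN, Subgroup.closure_le]
    rintro _ ⟨b, rfl⟩
    exact hx b
  have hYmu : Y ⊔ (mu K ⊓ P) = P := by
    rw [hmuP, hY, ← Subgroup.map_sup, hy, hP]
  have hmuN : mu K ⊓ N = mu K ⊓ minus τ := by
    rw [hN, ← inf_assoc, inf_eq_left.2 (mu_le K _)]
  have hrank := hRank F K τ hQ S A hO r hr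
  rw [← hN] at hrank
  have hgt := hGT Kˣ (actK τ) hactact (SU K (A : Set (HeightOneSpectrum (𝓞 K)))) (mu K) P N
    hUact (mu_le K _) (finite_mu K)
    (fun z _ ⟨n, hn, hzn⟩ => isOfFinOrder_iff_pow_eq_one.2 ⟨n, hn, hzn⟩) hPiff hNiff (-1)
    (isOfFinOrder_iff_pow_eq_one.2 ⟨2, by norm_num, by simp⟩)
    (by
      intro h
      have h1 := congrArg (fun z : Kˣ => (z : K)) h
      simp only [Units.val_neg, Units.val_one] at h1
      have h2 : (2 : K) = 0 := by linear_combination (-1 : K) * h1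
      exact two_ne_zero h2)
    (by simp)
    (by
      apply Units.ext
      change τ (((-1 : Kˣ)) : K) = ((-1 : Kˣ) : K)
      simp)
    (by
      intro z _ hz
      have h1 : ((z : Kˣ) : K) * (z : K) = 1 := by
        rw [← Units.val_mul, hz, Units.val_one]
      rcases mul_self_eq_one_iff.1 h1 with h2 | h2
      · left; exact Units.ext h2
      · right; exact Units.ext (by rw [h2]; simp))
    r hrank Y X hYP hXN hYmu
  rw [hmuN] at hgt
  have hcl : Subgroup.closure (Set.range (Sum.elim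
      (fun b => Units.map (algebraMap F K : F →* K) (y b)) x : Fin k ⊕ Fin r → Kˣ)) = Y ⊔ X := by
    rw [Set.Sum.elim_range, Subgroup.closure_union, hX, hY, MonoidHom.map_closure,
      ← Set.range_comp]
    rfl
  rw [hcl] at hK1
  -- the conclusion
  have hcardF : Nat.card (mu K ⊓ P : Subgroup Kˣ) = Units.torsionOrder F := by
    rw [hmuP, Subgroup.card_map_of_injective inc_inj, card_mu]
  rw [hcardF, card_mu] at hgt
  have hw := final |q| (Units.torsionOrder K) (Units.torsionOrder F) (classNumber F)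
    (classNumber K) (Units.regulator F) (Units.regulator K)
    (∏ v ∈ S, Real.log (Ideal.absNorm v.asIdeal)) (∏ P ∈ A, Real.log (Ideal.absNorm P.asIdeal))
    (Nat.card (CA (S : Set (HeightOneSpectrum (𝓞 F)))))
    (Nat.card (CA (A : Set (HeightOneSpectrum (𝓞 K)))))
    (CA (S : Set (HeightOneSpectrum (𝓞 F)))).index
    (CA (A : Set (HeightOneSpectrum (𝓞 K)))).index
    (((SU K A).map ((MonoidHom.id Kˣ) / actK τ)).relIndex N : ℕ)
    ((Y ⊔ X ⊔ mu K).relIndex (SU K (A : Set (HeightOneSpectrum (𝓞 K)))) : ℕ)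
    ((X ⊔ (mu K ⊓ minus τ)).relIndex N : ℕ)
    (Nat.card (mu K ⊓ minus τ : Subgroup Kˣ)) _ _ |(logM u x).det| a k r (by omega)
    (by exact_mod_cast Units.torsionOrder_ne_zero K)
    (by exact_mod_cast Units.torsionOrder_ne_zero F)
    (by exact_mod_cast (Nat.pos_of_ne_zero (by
      rw [classNumber]; exact Fintype.card_ne_zero)).ne')
    (Units.regulator_ne_zero F) (log_prod_pos S).ne' hF1 hK1 (by rw [hdet, Fintype.card_fin])
    (by exact_mod_cast hgt) (by rw [← hqe])
    (by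
      rw [classNumber, ← Nat.card_eq_fintype_card]
      exact_mod_cast Subgroup.index_mul_card _)
    (by
      rw [classNumber, ← Nat.card_eq_fintype_card]
      exact_mod_cast Subgroup.index_mul_card _)
    (by
      rw [hN]
      exact_mod_cast ha.symm)
  have hkr : Fintype.card (InfinitePlace F) + S.card - (r + 1) = k - r := by omega
  rw [hkr, ← hN, ← hX]
  exact hw

end Pool.Agent.K3h77.E2
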